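import Pool.Agent.NondegCurves.FrenetLength

set_option autoImplicit false

open Pool.Agent.NondegCurves

namespace Pool.Agent.Results.MP_f07be6_gt.FrameLengthBound

/-- For every `n ≥ 4` and every nondegenerate closed curve `γ` in `ℝⁿ` the length of its Frenet
frame exceeds `2π μ(n)`. -/
theorem result (n : ℕ) (hn : 4 ≤ n) (γ : ℝ → Eucl n) (hγ : IsNondegenerateClosed n γ) :
    2 * Real.pi * (mu n : ℝ) < frenetFrameLength n γ := by
  rw [mu_eq_one n hn, Nat.cast_one, mul_one]
  exact two_pi_lt_frenetFrameLength hγ (by omega)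

end Pool.Agent.Results.MP_f07be6_gt.FrameLengthBound
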