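import Pool.Agent.NondegCurves.Perturb

set_option autoImplicit false

open Pool.Agent.NondegCurves

namespace Pool.Agent.Results.MP_f07be6_gt.MuEqualsOne

/-- `μ(n) = 1` for every `n ≥ 4`: the least `m ≥ 1` such that every `C^∞`-neighbourhood of the
`m` times traversed plane unit circle in `ℝⁿ` contains a nondegenerate closed curve is `1`. -/
theorem result (n : ℕ) (hn : 4 ≤ n) :
    IsLeast {m : ℕ | 1 ≤ m ∧ CirclePerturbsToNondegenerate n m} 1 :=
  isLeast_one n hn

end Pool.Agent.Results.MP_f07be6_gt.MuEqualsOne
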